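import Pool.Agent.Y998.LP.Defs
import Pool.Agent.TH268.PD.Var

/-!
# LP-SAMP: ordered fractions of a finite set from random points
(helper259, for project LP of helper998; variant of `TH268.PD.sample_bound`)
-/

set_option autoImplicit false

namespace Pool.Agent.Y259.LP

open Finset Equiv
open Pool.Agent.TH268.PD (Cyc cyOf frac top top_ret top_lip top_nonneg var_bound)
open Pool.Agent.Y998.LP

section count

variable {V : Type} [Fintype V] [DecidableEq V]

theorem union_bound {α ι : Type} [Fintype α] (P : α → Prop) (I : Finset ι) (E : ι → Finset α)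
    (C : ℕ) (hE : ∀ x ∈ I, (E x).card ≤ C) (h : ∀ b, P b → ∃ x ∈ I, b ∈ E x) :
    Nat.card {b // P b} ≤ I.card * C := by
  classical
  rw [Nat.card_eq_fintype_card, Fintype.card_subtype]
  calc (univ.filter P).card ≤ (I.biUnion E).card := by
        apply Finset.card_le_card
        intro b hb
        rw [Finset.mem_biUnion]
        exact h b (Finset.mem_filter.1 hb).2
    _ ≤ I.card * C := Finset.card_biUnion_le_card_mul _ _ _ hE

theorem card_eq_le (k : ℕ) (i l : Fin k) (hil : i ≠ l) (f : V → V) :
    (univ.filter (fun b : Fin k → V => b l = f (b i))).card ≤ Fintype.card V ^ (k - 1) := by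
  classical
  have h1 : Fintype.card ({j : Fin k // j ≠ l} → V) = Fintype.card V ^ (k - 1) := by
    rw [Fintype.card_fun]
    congr 1
    rw [Fintype.card_subtype_compl, Fintype.card_fin, Fintype.card_subtype_eq]
  rw [← h1, ← Finset.card_univ]
  apply Finset.card_le_card_of_injOn (fun b (j : {j : Fin k // j ≠ l}) => b j.1)
  · intro b _
    simp
  · intro b hb b' hb' hbb
    rw [Finset.mem_coe, Finset.mem_filter] at hb hb'
    have h2 : ∀ j, j ≠ l → b j = b' j := fun j hj => congrFun hbb ⟨j, hj⟩
    funext j
    by_cases hj : j = l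
    · rw [hj, hb.2, hb'.2, h2 i hil]
    · exact h2 j hj

/-- few tuples of points are not injective -/
theorem card_noninj (k : ℕ) :
    (Nat.card {b : Fin k → V // ¬ Function.Injective b} : ℝ) ≤
      (k : ℝ) ^ 2 * (Fintype.card V : ℝ) ^ (k - 1) := by
  classical
  have key := union_bound (fun b : Fin k → V => ¬ Function.Injective b)
    ((univ : Finset (Fin k)) ×ˢ (univ : Finset (Fin k)))
    (fun x => if x.1 = x.2 then ∅ else univ.filter (fun b : Fin k → V => b x.2 = id (b x.1)))
    (Fintype.card V ^ (k - 1)) (by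
      intro x _
      split_ifs with h
      · simp
      · exact card_eq_le k x.1 x.2 h _) (by
      intro b hb
      unfold Function.Injective at hb
      push Not at hb
      obtain ⟨i, l, hil, hne⟩ := hb
      refine ⟨(i, l), by simp, ?_⟩
      rw [if_neg hne, Finset.mem_filter]
      exact ⟨Finset.mem_univ _, hil.symm⟩)
  rw [Finset.card_product, Finset.card_univ, Fintype.card_fin] at key
  calc (Nat.card {b : Fin k → V // ¬ Function.Injective b} : ℝ) ≤
        ((k * k * Fintype.card V ^ (k - 1) : ℕ) : ℝ) := by exact_mod_cast key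
    _ = _ := by push_cast; ring

end count

theorem t_SAMP : S_SAMP := by
  classical
  intro V _ _ B k hk hB g r hr m f C Λ hΛ hC hf
  have hC0 : 0 ≤ C := (abs_nonneg _).trans (hC (fun _ => 0))
  have hkR : (0 : ℝ) < k := by exact_mod_cast hk
  have hnR : (0 : ℝ) < B.card := by exact_mod_cast hB
  have hWc : Fintype.card {v : V // v ∈ B} = B.card := Fintype.card_coe B
  have hWcard : (Fintype.card {v : V // v ∈ B} : ℝ) = B.card := by rw [hWc]
  have hne : Nonempty {v : V // v ∈ B} := by
    obtain ⟨v, hv⟩ := Finset.card_pos.1 hB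
    exact ⟨⟨v, hv⟩⟩
  have hfinC : Finite (Cyc g) := Quotient.finite _
  have : Fintype (Cyc g) := Fintype.ofFinite _
  obtain ⟨P, hP⟩ : ∃ P, P = f (fun i => top (bfrac B g) i) := ⟨_, rfl⟩
  -- the sum over tuples of points in `B`
  have hsum : (∑ b ∈ Fintype.piFinset (fun _ : Fin k => B), if Function.Injective b then
      f (fun i => top (frac (r b)) i) else 0) =
      ∑ b' : Fin k → {v : V // v ∈ B}, if Function.Injective b' then
        f (fun i => top (frac (r (fun l => (b' l).1))) i) else 0 := by
    symm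
    refine Finset.sum_bij' (fun b' _ => fun l => (b' l).1)
      (fun b hb => fun l => ⟨b l, Fintype.mem_piFinset.1 hb l⟩) ?_ ?_ ?_ ?_ ?_
    · intro b' _
      exact Fintype.mem_piFinset.2 fun i => (b' i).2
    · intro b _
      exact Finset.mem_univ _
    · intro b' _
      rfl
    · intro b _
      rfl
    · intro b' _
      have h1 : Function.Injective b' ↔ Function.Injective (fun l => (b' l).1) := by
        constructor
        · intro h x y hxy
          exact h (Subtype.ext hxy)
        · intro h x y hxy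
          exact h (congrArg Subtype.val hxy)
      by_cases h2 : Function.Injective b'
      · rw [if_pos h2, if_pos (h1.1 h2)]
      · rw [if_neg h2, if_neg (fun h => h2 (h1.2 h))]
  have hbf : ∀ γ : Cyc g, bfrac B g γ =
      (Nat.card {w : {v : V // v ∈ B} // cyOf g w.1 = γ} : ℝ) / B.card := by
    intro γ
    unfold bfrac
    congr 2
    exact Nat.card_congr ⟨fun w => ⟨⟨w.1, w.2.1⟩, w.2.2⟩, fun v => ⟨v.1.1, v.1.2, v.2⟩,
      fun w => rfl, fun v => rfl⟩
  obtain ⟨M, hM⟩ : ∃ M : (Fin k → {v : V // v ∈ B}) → ℝ, M = fun b' =>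
    Real.sqrt (∑ γ : Cyc g, ((Nat.card {w : {v : V // v ∈ B} // cyOf g w.1 = γ} : ℝ) /
      Fintype.card {v : V // v ∈ B} -
      (Nat.card {l : Fin k // cyOf g (b' l).1 = γ} : ℝ) / k) ^ 2) := ⟨_, rfl⟩
  have hM0 : ∀ b', 0 ≤ M b' := fun b' => by rw [hM]; exact Real.sqrt_nonneg _
  have hMle : ∀ b' γ, |(Nat.card {w : {v : V // v ∈ B} // cyOf g w.1 = γ} : ℝ) /
      Fintype.card {v : V // v ∈ B} -
      (Nat.card {l : Fin k // cyOf g (b' l).1 = γ} : ℝ) / k| ≤ M b' := by
    intro b' γ
    rw [hM]
    apply Real.abs_le_sqrt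
    exact Finset.single_le_sum (f := fun γ =>
      ((Nat.card {w : {v : V // v ∈ B} // cyOf g w.1 = γ} : ℝ) /
      Fintype.card {v : V // v ∈ B} -
      (Nat.card {l : Fin k // cyOf g (b' l).1 = γ} : ℝ) / k) ^ 2)
      (fun γ _ => sq_nonneg _) (Finset.mem_univ γ)
  have hcardfun : (Fintype.card (Fin k → {v : V // v ∈ B}) : ℝ) = (B.card : ℝ) ^ k := by
    rw [Fintype.card_fun, Fintype.card_fin]
    push_cast
    rw [hWcard]
  -- the sum of the errors
  have hMsum : ∑ b', M b' ≤ (B.card : ℝ) ^ k * (1 / Real.sqrt k) := by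
    have h1 := sq_sum_le_card_mul_sum_sq (s := (Finset.univ :
      Finset (Fin k → {v : V // v ∈ B}))) (f := M)
    have h2 : ∑ b', M b' ^ 2 ≤ (B.card : ℝ) ^ k / k := by
      have h3 := var_bound (fun w : {v : V // v ∈ B} => cyOf g w.1) k hk
      rw [hWcard] at h3
      refine le_trans (le_of_eq ?_) h3
      refine Finset.sum_congr rfl fun b' _ => ?_
      rw [hM]
      dsimp only
      rw [Real.sq_sqrt (Finset.sum_nonneg fun γ _ => sq_nonneg _), hWcard]
    rw [Finset.card_univ, hcardfun] at h1
    have h4 : (∑ b', M b') ^ 2 ≤ ((B.card : ℝ) ^ k * (1 / Real.sqrt k)) ^ 2 := by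
      refine h1.trans ((mul_le_mul_of_nonneg_left h2 (by positivity)).trans (le_of_eq ?_))
      rw [mul_pow, div_pow, Real.sq_sqrt hkR.le]
      ring
    exact (pow_le_pow_iff_left₀ (Finset.sum_nonneg fun b' _ => hM0 b') (by positivity)
      two_ne_zero).1 h4
  -- one tuple
  have hone : ∀ b' : Fin k → {v : V // v ∈ B},
      |(if Function.Injective b' then
        f (fun i => top (frac (r (fun l => (b' l).1))) i) else 0) - P| ≤
      Λ * M b' + (if Function.Injective b' then 0 else C) := by
    intro b'
    by_cases hb : Function.Injective b'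
    · rw [if_pos hb, if_pos hb, add_zero, hP]
      have hb2 : Function.Injective (fun l => (b' l).1) := fun x y hxy => hb (Subtype.ext hxy)
      refine hf _ _ _ (hM0 b') fun i => ?_
      rw [top_ret hk (fun l => (b' l).1) g (r fun l => (b' l).1) (hr _ hb2) i]
      refine top_lip _ _ (fun γ => by positivity)
        (fun γ => by rw [hbf]; positivity) _ (hM0 b') (fun γ => ?_) i
      have h1 := hMle b' γ
      rw [hWcard, abs_sub_comm] at h1
      rw [hbf]
      exact h1
    · rw [if_neg hb, if_neg hb, zero_sub, abs_neg]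
      have h1 : 0 ≤ Λ * M b' := mul_nonneg hΛ (hM0 b')
      have h2 : |P| ≤ C := by rw [hP]; exact hC _
      linarith
  -- tuples which are not injective
  have hnon : ∑ b' : Fin k → {v : V // v ∈ B}, (if Function.Injective b' then 0 else C) ≤
      C * ((k : ℝ) ^ 2 * (B.card : ℝ) ^ (k - 1)) := by
    have h1 : ∑ b' : Fin k → {v : V // v ∈ B}, (if Function.Injective b' then 0 else C) =
        C * (Nat.card {b' : Fin k → {v : V // v ∈ B} // ¬ Function.Injective b'} : ℝ) := by
      rw [Nat.card_eq_fintype_card, Fintype.card_subtype, Finset.card_filter, Nat.cast_sum,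
        Finset.mul_sum]
      refine Finset.sum_congr rfl fun b' _ => ?_
      by_cases hb : Function.Injective b'
      · simp [hb]
      · simp [hb]
    rw [h1]
    have h2 := card_noninj (V := {v : V // v ∈ B}) k
    rw [hWcard] at h2
    exact mul_le_mul_of_nonneg_left h2 hC0
  have e0 : ∀ b : Fin k → V, (if Function.Injective b then
      f (fun i => top (frac (r b)) i) else 0) = (if Function.Injective b then
      f (fun i => top (frac (r b)) i) else 0) := fun b => rfl
  have hconst : (B.card : ℝ) ^ k * P = ∑ _b' : Fin k → {v : V // v ∈ B}, P := by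
    rw [Finset.sum_const, Finset.card_univ, nsmul_eq_mul, hcardfun]
  rw [← hP, hconst]
  have hfin : |(∑ b' : Fin k → {v : V // v ∈ B}, if Function.Injective b' then
        f (fun i => top (frac (r (fun l => (b' l).1))) i) else 0) -
        ∑ _b' : Fin k → {v : V // v ∈ B}, P| ≤
      (B.card : ℝ) ^ k * (Λ / Real.sqrt k) + C * ((k : ℝ) ^ 2 * (B.card : ℝ) ^ (k - 1)) := by
    rw [← Finset.sum_sub_distrib]
    calc |∑ b' : Fin k → {v : V // v ∈ B}, ((if Function.Injective b' then
          f (fun i => top (frac (r (fun l => (b' l).1))) i) else 0) - P)|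
        ≤ ∑ b' : Fin k → {v : V // v ∈ B}, |(if Function.Injective b' then
          f (fun i => top (frac (r (fun l => (b' l).1))) i) else 0) - P| :=
          Finset.abs_sum_le_sum_abs _ _
      _ ≤ ∑ b' : Fin k → {v : V // v ∈ B}, (Λ * M b' +
          (if Function.Injective b' then 0 else C)) := Finset.sum_le_sum fun b' _ => hone b'
      _ = Λ * (∑ b', M b') +
          ∑ b' : Fin k → {v : V // v ∈ B}, (if Function.Injective b' then 0 else C) := by
          rw [Finset.sum_add_distrib, ← Finset.mul_sum]
      _ ≤ Λ * ((B.card : ℝ) ^ k * (1 / Real.sqrt k)) +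
          C * ((k : ℝ) ^ 2 * (B.card : ℝ) ^ (k - 1)) :=
          add_le_add (mul_le_mul_of_nonneg_left hMsum hΛ) hnon
      _ = _ := by ring
  rw [← hsum] at hfin
  exact hfin

end Pool.Agent.Y259.LP
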